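import Pool.Agent.FLG.Problem
import Pool.Agent.FLG.Split
import Pool.Agent.FLG.RemoveBall
import Pool.Agent.FLG.Break
import Pool.Agent.FLG.Legs
import Pool.Agent.FLG.Links
import Pool.Agent.FLG.ES
import Pool.Agent.FLG.Grid
import Pool.Agent.FLG.CombStep
import Pool.Agent.FLG.Comb
import Pool.Agent.FLG.Main

/-!
# MP_edbb78_co: bounded-degree graphs without fat ladders have bounded strong isometric path
complexity

The statement uses the definitions of `Pool/Agent/FLG/Problem.lean`.
-/

universe u

namespace Pool.Agent.Results.MP_edbb78_co.SipcoBounded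

open SimpleGraph FatLadder

/-- There is a function `f` such that every connected graph `G` of maximum degree at most `d`
which excludes the `2 × t` grid as a `K`-fat minor has `sipco G ≤ f d t K`, and hence
`ipco G ≤ f d t K`; the first conclusion spells out the bound on `sipco`: for every vertex `v`,
every isometric path of `G` is covered by at most `f d t K` isometric paths starting at `v`. -/
theorem result : ∃ f : ℕ → ℕ → ℕ → ℕ, ∀ d t K : ℕ, 1 ≤ K →
    ∀ (V : Type u) [Fintype V] (G : SimpleGraph V) [DecidableRel G.Adj],
      G.Connected → G.maxDegree ≤ d → ¬ HasFatMinor G (ladder t) K →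
        (∀ v, RootBound G v (f d t K)) ∧ sipco G ≤ f d t K ∧ ipco G ≤ f d t K := by
  obtain ⟨f, hf⟩ := targetMain (targetComb targetSplit (targetCombStep targetRemoveBall))
    targetBreak targetLegs targetES (targetGrid targetLinks)
  refine ⟨f, ?_⟩
  intro d t K hK V _ G _ hG hd hm
  refine hf d t K hK V G hG ?_ hm
  intro v
  have h1 : (G.neighborSet v).ncard = G.degree v := by
    rw [Set.ncard_eq_toFinset_card', ← SimpleGraph.card_neighborFinset_eq_degree]
    rfl
  rw [h1]
  exact (G.degree_le_maxDegree v).trans hd

end Pool.Agent.Results.MP_edbb78_co.SipcoBounded
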